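import Pool.Agent.H306R2.RZ.Defs4

set_option autoImplicit false

namespace Pool.Agent.H648R2.RZHC

open Finset Filter Topology MeasureTheory Pool.Agent.H306R2.RZ

noncomputable section

/-- the multiplicative function `gcd(e,k)/e` -/
def ff (k : ℕ) : ArithmeticFunction ℝ :=
  ⟨fun e => (e.gcd k : ℝ) / e, by simp⟩

theorem ff_mult (k : ℕ) : (ff k).IsMultiplicative := by
  constructor
  · simp [ff]
  · intro m n hmn
    simp only [ff, ArithmeticFunction.coe_mk]
    have h1 : (m * n).gcd k = m.gcd k * n.gcd k := by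
      rw [Nat.gcd_comm, Nat.Coprime.gcd_mul k hmn, Nat.gcd_comm k m, Nat.gcd_comm k n]
    rw [h1]
    push_cast
    rw [mul_div_mul_comm]

theorem sum_eq (g k : ℕ) (hg : Squarefree g) :
    ∑ e ∈ g.divisors, ((ArithmeticFunction.moebius e : ℤ) : ℝ) * ((e.gcd k : ℝ) / e) =
      if Nat.Coprime k g then (g.totient : ℝ) / g else 0 := by
  have h := ArithmeticFunction.IsMultiplicative.prodPrimeFactors_one_sub_of_squarefree
    (ff k) (ff_mult k) hg
  have h2 : ∑ e ∈ g.divisors, ((ArithmeticFunction.moebius e : ℤ) : ℝ) * ((e.gcd k : ℝ) / e) =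
      ∏ p ∈ g.primeFactors, (1 - ff k p) := by
    rw [h]; rfl
  rw [h2]
  split_ifs with hc
  · have h3 : ∏ p ∈ g.primeFactors, (1 - ff k p) = ∏ p ∈ g.primeFactors, (1 - (p : ℝ)⁻¹) := by
      apply Finset.prod_congr rfl
      intro p hp
      have hp' := Nat.prime_of_mem_primeFactors hp
      have hd := Nat.dvd_of_mem_primeFactors hp
      have : p.gcd k = 1 := (Nat.Coprime.coprime_dvd_left hd hc.symm)
      simp [ff, this]
    have h4 : ((g.totient : ℚ) : ℝ) = ((g * ∏ p ∈ g.primeFactors, (1 - (p : ℚ)⁻¹) : ℚ) : ℝ) := by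
      rw [← Nat.totient_eq_mul_prod_factors]
    push_cast at h4
    have hg0 : (g : ℝ) ≠ 0 := by exact_mod_cast hg.ne_zero
    rw [h3, h4]
    field_simp
  · have : ∃ p, p.Prime ∧ p ∣ k ∧ p ∣ g := Nat.Prime.not_coprime_iff_dvd.1 hc
    obtain ⟨p, hp, hpk, hpg⟩ := this
    apply Finset.prod_eq_zero (i := p) (Nat.mem_primeFactors.2 ⟨hp, hpg, hg.ne_zero⟩)
    have hgc : p.gcd k = p := Nat.gcd_eq_left hpk
    have hp0 : (p : ℝ) ≠ 0 := by exact_mod_cast hp.ne_zero
    simp [ff, hgc, hp0]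

/-- the main terms agree -/
theorem HC (M : ℝ) (hM : 0 < M) (k : ℤ) (hk : Squarefree k.natAbs) (g q : ℕ) (hg : Squarefree g)
    (hq : q ≠ 0) (hgq : g.Coprime q) :
    ∑ e ∈ g.divisors, ((ArithmeticFunction.moebius e : ℤ) : ℝ) * (M / (e * Real.sqrt q)) *
      (((q.totient : ℝ) / q) *
        Real.sqrt ((e.gcd k.natAbs : ℝ) ^ 2 * q / ((k.natAbs : ℝ) * M))) =
      if Nat.Coprime k.natAbs g then
        (((g * q).totient : ℝ) / ((g * q : ℕ) : ℝ)) * Real.sqrt (M / k.natAbs) else 0 := by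
  have hk0 : 0 < (k.natAbs : ℝ) := by
    have := Nat.pos_of_ne_zero hk.ne_zero
    exact_mod_cast this
  have hq0 : 0 < (q : ℝ) := by exact_mod_cast Nat.pos_of_ne_zero hq
  have h1 : ∀ e ∈ g.divisors, ((ArithmeticFunction.moebius e : ℤ) : ℝ) * (M / (e * Real.sqrt q)) *
      (((q.totient : ℝ) / q) *
        Real.sqrt ((e.gcd k.natAbs : ℝ) ^ 2 * q / ((k.natAbs : ℝ) * M))) =
      (((q.totient : ℝ) / q) * Real.sqrt (M / k.natAbs)) *
        (((ArithmeticFunction.moebius e : ℤ) : ℝ) * ((e.gcd k.natAbs : ℝ) / e)) := by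
    intro e he
    have he0 : 0 < (e : ℝ) := by exact_mod_cast Nat.pos_of_mem_divisors he
    have h2 : Real.sqrt ((e.gcd k.natAbs : ℝ) ^ 2 * q / ((k.natAbs : ℝ) * M)) =
        (e.gcd k.natAbs : ℝ) * Real.sqrt q / (Real.sqrt k.natAbs * Real.sqrt M) := by
      rw [Real.sqrt_div (by positivity), Real.sqrt_mul (by positivity), Real.sqrt_sq (by positivity),
        Real.sqrt_mul (by positivity)]
    have h3 : Real.sqrt (M / k.natAbs) = Real.sqrt M / Real.sqrt k.natAbs := by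
      rw [Real.sqrt_div hM.le]
    rw [h2, h3]
    have hs1 : 0 < Real.sqrt q := Real.sqrt_pos.2 hq0
    have hs2 : 0 < Real.sqrt k.natAbs := Real.sqrt_pos.2 hk0
    have hs3 : 0 < Real.sqrt M := Real.sqrt_pos.2 hM
    have hs4 : Real.sqrt M * Real.sqrt M = M := Real.mul_self_sqrt hM.le
    have hs5 : Real.sqrt M ^ 2 = M := by rw [sq]; exact hs4
    field_simp
    rw [hs5]
    ring
  rw [Finset.sum_congr rfl h1, ← Finset.mul_sum, sum_eq g _ hg]
  split_ifs with hc
  · rw [Nat.totient_mul hgq]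
    push_cast
    have hg0 : (g : ℝ) ≠ 0 := by exact_mod_cast hg.ne_zero
    field_simp
  · simp

end

end Pool.Agent.H648R2.RZHC
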